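import Pool.Agent.W953.BLS.Mem
import Pool.Agent.H612.PatOf

/-!
# Long and short edges on complete bipartite graphs: `∃ℝ`-completeness

The decision problem `KLongShort`: given a Boolean matrix with `m ≥ 1` rows and `n ≥ 1` columns,
i.e. the complete bipartite graph `K_{m,n}` with a partition of its edges into short ones and long
ones, is there a non-degenerate straight-line drawing of `K_{m,n}` in the plane in which the edges
of length at most one are exactly the short ones?

Sketch of the hardness proof.  We reduce from the realizability of strict sign matrices by points
and lines of the plane, i.e. from sign rank at most three.  A row of the sign matrix is a vertex of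
the first class, and every column becomes two vertices `a`, `b` of the second class; the edge from
`y` to `a` is short and the edge from `y` to `b` is long if the sign is positive, and vice versa if
it is negative.  In a drawing, the sign says on which side of the perpendicular bisector of `a` and
`b` the point `y` lies.  Conversely, an arrangement of points and lines is scaled down to a small
neighbourhood of the origin, and `a`, `b` are placed close to the two points of the unit circle in
the direction of the normal of the line; all inequalities are strict, so that the drawing can be
made non-degenerate by a small perturbation.
-/

namespace Pool.Agent.Results.MP_24b35c_lc.BipartiteLongShortComplete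

open Pool.Agent.NPC Pool.Agent.NPC.ER Pool.Agent.NPC.ER.Pat Pool.Agent.W953.BLS

theorem isPatOf : IsPatOf Sgn.patOf where
  poly := Sgn.poly_patOf Poly.id
  wf := Sgn.patOf_wf
  sound := fun _ h => Sgn.patOf_sound h
  complete := fun _ h => Sgn.patOf_complete h

/-- Long/short edge realizability, restricted to complete bipartite graphs `K_{m,n}`, `m, n ≥ 1`
(with arbitrary partitions of the edges into short ones and long ones), is `∃ℝ`-complete under
polynomial-time many-one reductions. -/
theorem result : ERComplete (lang KLongShort) :=
  ⟨Pool.Agent.NPC.W953BLS.mem, Pool.Agent.NPC.W953BLS.hard isPatOf⟩

end Pool.Agent.Results.MP_24b35c_lc.BipartiteLongShortComplete
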